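import Mathlib
import Pool.Agent.Lib.MP_9dd972_gt_R.Main

/-!
# MP_9dd972_gt: Q1 for bodies with homothetic sections, every dimension, every 0 < p < 1
-/

set_option autoImplicit false
open scoped MeasureTheory Pointwise

namespace Pool.Agent.Results.MP_9dd972_gt.HomotheticSections

/-- Convex body (compact, convex, with nonempty interior) with centroid at the origin. -/
structure Centered {n : ℕ} (K : Set (EuclideanSpace ℝ (Fin n))) : Prop where
  convex : Convex ℝ K
  compact : IsCompact K
  interior : (interior K).Nonempty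
  centroid : ∫ x in K, x = 0

/-- The L_p surface area measure of `K` on the set `ω` of unit vectors (as in the frozen
statement): integral of `h_K(u) ^ (1 - p)` over the boundary points with an outer unit normal in
`ω`, with respect to the Hausdorff measure of dimension `n - 1`. -/
noncomputable def S {n : ℕ} (p : ℝ) (K ω : Set (EuclideanSpace ℝ (Fin n))) : ENNReal :=
  ∫⁻ x in {x | x ∈ K ∧ ∃ u ∈ ω, ∀ y ∈ K, inner ℝ u (y - x) ≤ (0 : ℝ)},
    (⨅ (u : EuclideanSpace ℝ (Fin n))
      (_ : u ∈ Metric.sphere (0 : EuclideanSpace ℝ (Fin n)) 1 ∧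
        ∀ y ∈ K, inner ℝ u (y - x) ≤ (0 : ℝ)),
      ENNReal.ofReal (inner ℝ u x ^ (1 - p))) ∂μH[(n : ℝ) - 1]

/-- `K` has homothetic sections with base `Q` in the linear coordinates `g`: in these coordinates
`K` is the set of the points `(t, y)` with `t` real and `y ∈ r(t) Q`, where `r` is a real function
(a negative value of `r` means that the section is empty). -/
def Sections {N : ℕ} (Q : Set (EuclideanSpace ℝ (Fin N)))
    (g : EuclideanSpace ℝ (Fin (N + 1)) ≃L[ℝ] EuclideanSpace ℝ (Fin (N + 1)))
    (K : Set (EuclideanSpace ℝ (Fin (N + 1)))) : Prop :=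
  ∃ r : ℝ → ℝ, K = g '' {x | 0 ≤ r (x 0) ∧
    (WithLp.toLp 2 (fun i : Fin N => x i.succ) : EuclideanSpace ℝ (Fin N)) ∈ r (x 0) • Q}

/-- Q1 holds in every dimension `N + 1 ≥ 2` and for every `0 < p < 1` for bodies with homothetic
sections: if the centered bodies `K` and `C` have homothetic sections with the same base `Q` in
the same coordinates and equal L_p surface area measures, then `K = C`. -/
theorem result (N : ℕ) (hN : 1 ≤ N) (p : ℝ) (hp : 0 < p) (hp1 : p < 1)
    (Q : Set (EuclideanSpace ℝ (Fin N))) (hQ : Convex ℝ Q) (hQc : IsCompact Q)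
    (hQi : 0 ∈ interior Q)
    (g : EuclideanSpace ℝ (Fin (N + 1)) ≃L[ℝ] EuclideanSpace ℝ (Fin (N + 1)))
    (K C : Set (EuclideanSpace ℝ (Fin (N + 1)))) (hK : Centered K) (hC : Centered C)
    (sK : Sections Q g K) (sC : Sections Q g C)
    (h : ∀ ω : Set (EuclideanSpace ℝ (Fin (N + 1))), MeasurableSet ω →
      ω ⊆ Metric.sphere 0 1 → S p K ω = S p C ω) : K = C := by
  obtain ⟨r, sK⟩ := sK
  obtain ⟨s, sC⟩ := sC
  exact Pool.Agent.MP9dd972R.sections_unique hN hp hp1
    { conv := hQ, comp := hQc, zero := hQi } g r s hK.convex hK.compact hK.interior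
    hC.convex hC.compact hC.interior hK.centroid hC.centroid sK sC h

end Pool.Agent.Results.MP_9dd972_gt.HomotheticSections
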