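import Mathlib
import Pool.Agent.Lib.MP_9dd972_gt.N.Top

/-!
# MP_9dd972_gt: Q1 in every dimension, for p close to 1
-/

set_option autoImplicit false
open scoped MeasureTheory

namespace Pool.Agent.Results.MP_9dd972_gt.NearOne

/-- For every dimension n at least 2 there is p0 < 1 such that Q1 holds in dimension n for every
exponent p in (p0, 1): two convex bodies with centroid at the origin and the same L_p surface area
measure are equal. The inner statement is the frozen statement for this n and p. -/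
theorem result (n : ℕ) (hn : 2 ≤ n) :
    ∃ p0 : ℝ, p0 < 1 ∧ ∀ p : ℝ, 0 < p → p0 < p → p < 1 →
    ∀ (K C : Set (EuclideanSpace ℝ (Fin n))),
    Convex ℝ K → IsCompact K → (interior K).Nonempty →
    Convex ℝ C → IsCompact C → (interior C).Nonempty →
    (∫ x in K, x) = (0 : EuclideanSpace ℝ (Fin n)) →
    (∫ x in C, x) = (0 : EuclideanSpace ℝ (Fin n)) →
    (∀ ω : Set (EuclideanSpace ℝ (Fin n)), MeasurableSet ω →
      ω ⊆ Metric.sphere (0 : EuclideanSpace ℝ (Fin n)) 1 →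
      (∫⁻ x in {x | x ∈ K ∧ ∃ u ∈ ω, ∀ y ∈ K, inner ℝ u (y - x) ≤ 0},
          (⨅ (u : EuclideanSpace ℝ (Fin n))
             (_ : u ∈ Metric.sphere (0 : EuclideanSpace ℝ (Fin n)) 1 ∧
                  ∀ y ∈ K, inner ℝ u (y - x) ≤ 0),
            ENNReal.ofReal (inner ℝ u x ^ (1 - p))) ∂μH[(n : ℝ) - 1])
      =
      (∫⁻ x in {x | x ∈ C ∧ ∃ u ∈ ω, ∀ y ∈ C, inner ℝ u (y - x) ≤ 0},
          (⨅ (u : EuclideanSpace ℝ (Fin n))
             (_ : u ∈ Metric.sphere (0 : EuclideanSpace ℝ (Fin n)) 1 ∧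
                  ∀ y ∈ C, inner ℝ u (y - x) ≤ 0),
            ENNReal.ofReal (inner ℝ u x ^ (1 - p))) ∂μH[(n : ℝ) - 1])) →
    K = C := by
  obtain ⟨p0, _, h1, hmain⟩ := Pool.Agent.MP9dd972N.near_one n hn
  exact ⟨p0, h1, fun p _ hp hp1 K C hK hKc hKi hC hCc hCi cK cC h =>
    hmain p hp hp1 K C hK hKc hKi hC hCc hCi cK cC h⟩

end Pool.Agent.Results.MP_9dd972_gt.NearOne
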