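import Mathlib
import Pool.Agent.Lib.MP_9dd972_gt.Top

/-!
# MP_9dd972_gt: the planar case of Q1, for every p in (0, 1)
-/

set_option autoImplicit false
open scoped MeasureTheory

namespace Pool.Agent.Results.MP_9dd972_gt.Planar

/-- Q1 in dimension n = 2, for every p in (0, 1): two planar convex bodies with centroid at the
origin and the same L_p surface area measure are equal. The statement is the frozen statement
with n = 2. -/
theorem result (p : ℝ) (hp0 : 0 < p) (hp1 : p < 1)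
    (K C : Set (EuclideanSpace ℝ (Fin 2)))
    (hK : Convex ℝ K) (hKc : IsCompact K) (hKi : (interior K).Nonempty)
    (hC : Convex ℝ C) (hCc : IsCompact C) (hCi : (interior C).Nonempty)
    (cK : (∫ x in K, x) = (0 : EuclideanSpace ℝ (Fin 2)))
    (cC : (∫ x in C, x) = (0 : EuclideanSpace ℝ (Fin 2)))
    (h : ∀ ω : Set (EuclideanSpace ℝ (Fin 2)), MeasurableSet ω →
      ω ⊆ Metric.sphere (0 : EuclideanSpace ℝ (Fin 2)) 1 →
      (∫⁻ x in {x | x ∈ K ∧ ∃ u ∈ ω, ∀ y ∈ K, inner ℝ u (y - x) ≤ 0},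
          (⨅ (u : EuclideanSpace ℝ (Fin 2))
             (_ : u ∈ Metric.sphere (0 : EuclideanSpace ℝ (Fin 2)) 1 ∧
                  ∀ y ∈ K, inner ℝ u (y - x) ≤ 0),
            ENNReal.ofReal (inner ℝ u x ^ (1 - p))) ∂μH[((2 : ℕ) : ℝ) - 1])
      =
      (∫⁻ x in {x | x ∈ C ∧ ∃ u ∈ ω, ∀ y ∈ C, inner ℝ u (y - x) ≤ 0},
          (⨅ (u : EuclideanSpace ℝ (Fin 2))
             (_ : u ∈ Metric.sphere (0 : EuclideanSpace ℝ (Fin 2)) 1 ∧
                  ∀ y ∈ C, inner ℝ u (y - x) ≤ 0),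
            ENNReal.ofReal (inner ℝ u x ^ (1 - p))) ∂μH[((2 : ℕ) : ℝ) - 1])) :
    K = C :=
  Pool.Agent.MP9dd972.planar_uniqueness
    (Pool.Agent.MP9dd972.lpair_of_eq (Pool.Agent.MP9dd972.body_of_centred hK hKc hKi cK)
      (Pool.Agent.MP9dd972.body_of_centred hC hCc hCi cC) hp0 hp1 h) cK cC

end Pool.Agent.Results.MP_9dd972_gt.Planar
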