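import Mathlib
import Pool.Agent.Lib.MP_9dd972_gt_R.Mainr

/-!
# MP_9dd972_gt: Q1 for bodies of revolution, every dimension, every 0 < p < 1
-/

set_option autoImplicit false
open scoped MeasureTheory

namespace Pool.Agent.Results.MP_9dd972_gt.Revolution

/-- Convex body (compact, convex, with nonempty interior) with centroid at the origin. -/
structure Centered {n : ℕ} (K : Set (EuclideanSpace ℝ (Fin n))) : Prop where
  convex : Convex ℝ K
  compact : IsCompact K
  interior : (interior K).Nonempty
  centroid : ∫ x in K, x = 0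

/-- The L_p surface area measure of `K` on the set `ω` of unit vectors (as in the frozen
statement): integral of `h_K(u) ^ (1 - p)` over the boundary points with an outer unit normal in
`ω`, with respect to the Hausdorff measure of dimension `n - 1`. -/
noncomputable def S {n : ℕ} (p : ℝ) (K ω : Set (EuclideanSpace ℝ (Fin n))) : ENNReal :=
  ∫⁻ x in {x | x ∈ K ∧ ∃ u ∈ ω, ∀ y ∈ K, inner ℝ u (y - x) ≤ (0 : ℝ)},
    (⨅ (u : EuclideanSpace ℝ (Fin n))
      (_ : u ∈ Metric.sphere (0 : EuclideanSpace ℝ (Fin n)) 1 ∧
        ∀ y ∈ K, inner ℝ u (y - x) ≤ (0 : ℝ)),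
      ENNReal.ofReal (inner ℝ u x ^ (1 - p))) ∂μH[(n : ℝ) - 1]

/-- Body of revolution: some line through the origin is an axis, that is, every linear isometry
fixing a certain nonzero vector maps `K` onto itself. -/
def Revolution {n : ℕ} (K : Set (EuclideanSpace ℝ (Fin n))) : Prop :=
  ∃ v : EuclideanSpace ℝ (Fin n), v ≠ 0 ∧
    ∀ T : EuclideanSpace ℝ (Fin n) ≃ₗᵢ[ℝ] EuclideanSpace ℝ (Fin n), T v = v → T '' K = K

/-- Q1 holds for bodies of revolution, in every dimension `n ≥ 2` and for every `0 < p < 1`: two
centered bodies of revolution (whose axes may differ) with equal L_p surface area measures are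
equal. -/
theorem result (n : ℕ) (hn : 2 ≤ n) (p : ℝ) (hp : 0 < p) (hp1 : p < 1)
    (K C : Set (EuclideanSpace ℝ (Fin n))) (hK : Centered K) (hC : Centered C)
    (rK : Revolution K) (rC : Revolution C)
    (h : ∀ ω : Set (EuclideanSpace ℝ (Fin n)), MeasurableSet ω →
      ω ⊆ Metric.sphere 0 1 → S p K ω = S p C ω) : K = C := by
  obtain ⟨v, hv, iK⟩ := rK
  obtain ⟨w, hw, iC⟩ := rC
  exact Pool.Agent.MP9dd972R.revolution_unique hn hp hp1 hK.convex hK.compact hK.interior
    hC.convex hC.compact hC.interior hK.centroid hC.centroid hv hw iK iC h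

end Pool.Agent.Results.MP_9dd972_gt.Revolution
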